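import Pool.Agent.W5h2.RS.Sys

/-!
# Extensions by groups with a system of retractions
-/

set_option autoImplicit false

namespace Pool.Agent.W5h2.RS

open Pool.Agent.Y110.FJ
open Pool.Agent.R941.FJ (C_equiv C_le C_cyc mem_sup_normal IsRdp)
open Pool.Agent.R942.FJ (Detected main_detected)
open Pool.Agent.Y462.SS (Closed)
open Pool.Agent.W5h2.GP (rdp_set Tori tori_cyc)

variable {C : ∀ (G : Type) [Group G], Prop}

/-- A system of retractions of the normal subgroup `N` of `G`: idempotent endomorphisms `e S` of `N`,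
for the finite subsets `S` of `I`, such that `e S ∘ e T = e (S ∩ T)`, each element of `N` is fixed by
some `e S`, and the conjugation by each `g` in `G` maps the kernels of the `e S` onto the kernels of the
`e (σ S)`, for some permutation `σ` of `I`. -/
structure RetractionSystem {G I : Type} [Group G] [DecidableEq I] (N : Subgroup G)
    (e : Finset I → (N →* N)) : Prop where
  comp : ∀ (S T : Finset I) (x : N), e S (e T x) = e (S ∩ T) x
  exhaust : ∀ x : N, ∃ S, e S x = x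
  perm : ∀ g : G, ∃ σ : Equiv.Perm I, ∀ (S : Finset I) (x y : N), (y : G) = g * x * g⁻¹ →
    (e S x = 1 ↔ e (S.image σ) y = 1)

/-- the elements `x` of `N` with `e S x = x` and `e (S \ {i}) x = 1` for all `i ∈ S` -/
def Mixed {G I : Type} [Group G] [DecidableEq I] {N : Subgroup G}
    (e : Finset I → (N →* N)) (S : Finset I) : Subgroup N where
  carrier := {x | e S x = x ∧ ∀ i ∈ S, e (S.erase i) x = 1}
  one_mem' := ⟨map_one _, fun _ _ => map_one _⟩
  mul_mem' := by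
    rintro x y ⟨hx, hx'⟩ ⟨hy, hy'⟩
    refine ⟨by rw [map_mul, hx, hy], fun i hi => ?_⟩
    rw [map_mul, hx' i hi, hy' i hi, one_mul]
  inv_mem' := by
    rintro x ⟨hx, hx'⟩
    refine ⟨by rw [map_inv, hx], fun i hi => ?_⟩
    rw [map_inv, hx' i hi, inv_one]

section main

variable {G I : Type} [Group G] [DecidableEq I] {N : Subgroup G}

/-- the image of `e S` -/
def Rt (e : Finset I → (N →* N)) (S : Finset I) : Subgroup G := (e S).range.map N.subtype

/-- the kernel of `e S` -/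
def Ot (e : Finset I → (N →* N)) (S : Finset I) : Subgroup G := (e S).ker.map N.subtype

theorem mem_Ot {e : Finset I → (N →* N)} {S : Finset I} {x : G} :
    x ∈ Ot e S ↔ ∃ h : x ∈ N, e S ⟨x, h⟩ = 1 := by
  constructor
  · rintro ⟨y, hy, rfl⟩
    exact ⟨y.2, hy⟩
  · rintro ⟨h, hx⟩
    exact ⟨⟨x, h⟩, hx, rfl⟩

theorem mem_Rt {e : Finset I → (N →* N)} (h : RetractionSystem N e) {S : Finset I} {x : G} :
    x ∈ Rt e S ↔ ∃ h : x ∈ N, e S ⟨x, h⟩ = ⟨x, h⟩ := by
  constructor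
  · rintro ⟨_, ⟨z, rfl⟩, rfl⟩
    refine ⟨(e S z).2, ?_⟩
    show e S (e S z) = e S z
    rw [h.comp, Finset.inter_self]
  · rintro ⟨hN, hx⟩
    exact ⟨⟨x, hN⟩, ⟨⟨x, hN⟩, hx⟩, rfl⟩

theorem sys {e : Finset I → (N →* N)} (h : RetractionSystem N e) (hN : N.Normal) :
    Sys N (Rt e) (Ot e) where
  nor := hN
  R_le S := by
    rintro _ ⟨x, _, rfl⟩
    exact x.2
  O_le S := by
    rintro _ ⟨x, _, rfl⟩
    exact x.2
  mono S T hST x hx := by
    rw [mem_Rt h] at hx ⊢
    obtain ⟨hxN, hx⟩ := hx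
    refine ⟨hxN, ?_⟩
    conv_lhs => rw [← hx]
    rw [h.comp, Finset.inter_eq_right.2 hST, hx]
  anti S T hST x hx := by
    rw [mem_Ot] at hx ⊢
    obtain ⟨hxN, hx⟩ := hx
    refine ⟨hxN, ?_⟩
    have h1 := h.comp S T ⟨x, hxN⟩
    rw [hx, map_one, Finset.inter_eq_left.2 hST] at h1
    exact h1.symm
  conj S m hm x hx := by
    rw [mem_Ot] at hx ⊢
    obtain ⟨hxN, hx⟩ := hx
    refine ⟨N.mul_mem (N.mul_mem hm hxN) (N.inv_mem hm), ?_⟩
    have h1 : (⟨m * x * m⁻¹, N.mul_mem (N.mul_mem hm hxN) (N.inv_mem hm)⟩ : N) =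
      ⟨m, hm⟩ * ⟨x, hxN⟩ * ⟨m, hm⟩⁻¹ := rfl
    rw [h1, map_mul, map_mul, hx, map_inv, mul_one, mul_inv_cancel]
  dec D T x hx := by
    rw [mem_Rt h] at hx
    obtain ⟨hxN, hx⟩ := hx
    refine ⟨e T ⟨x, hxN⟩, ?_, ((e T ⟨x, hxN⟩ : N) : G)⁻¹ * x, ?_, (mul_inv_cancel_left _ _).symm⟩
    · rw [mem_Rt h]
      refine ⟨(e T ⟨x, hxN⟩).2, ?_⟩
      show e (T ∩ D) (e T ⟨x, hxN⟩) = e T ⟨x, hxN⟩
      conv_rhs => rw [← hx, h.comp]
      rw [h.comp]
      congr 2
      ext i
      simp only [Finset.mem_inter]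
      tauto
    · rw [mem_Ot]
      refine ⟨N.mul_mem (N.inv_mem (e T ⟨x, hxN⟩).2) hxN, ?_⟩
      show e T ((e T ⟨x, hxN⟩)⁻¹ * ⟨x, hxN⟩) = 1
      rw [map_mul, map_inv, h.comp, Finset.inter_self, inv_mul_cancel]
  ind S x h1 h2 := by
    rw [mem_Rt h] at h1
    rw [mem_Ot] at h2
    obtain ⟨hxN, h1⟩ := h1
    obtain ⟨_, h2⟩ := h2
    rw [h2] at h1
    exact (congrArg Subtype.val h1).symm
  ex x hx := by
    obtain ⟨S, hS⟩ := h.exhaust ⟨x, hx⟩
    exact ⟨S, (mem_Rt h).2 ⟨hx, hS⟩⟩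
  perm g := by
    obtain ⟨σ, hσ⟩ := h.perm g
    refine ⟨σ, fun S x => ?_⟩
    rw [mem_Ot, mem_Ot]
    constructor
    · rintro ⟨hxN, hx⟩
      exact ⟨hN.conj_mem x hxN g, (hσ S ⟨x, hxN⟩ ⟨_, hN.conj_mem x hxN g⟩ rfl).1 hx⟩
    · rintro ⟨hyN, hy⟩
      have hxN : x ∈ N := by
        have := hN.conj_mem _ hyN g⁻¹
        have h3 : g⁻¹ * (g * x * g⁻¹) * g⁻¹⁻¹ = x := by group
        rwa [h3] at this
      exact ⟨hxN, (hσ S ⟨x, hxN⟩ ⟨_, hyN⟩ rfl).2 hy⟩

theorem mixed_equiv {e : Finset I → (N →* N)} (h : RetractionSystem N e) (S : Finset I) :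
    Nonempty (Mx (Rt e) (Ot e) S ≃* Mixed e S) := by
  have h1 : Mx (Rt e) (Ot e) S = (Mixed e S).map N.subtype := by
    ext x
    rw [mem_Mx]
    constructor
    · rintro ⟨h1, h2⟩
      rw [mem_Rt h] at h1
      obtain ⟨hxN, h1⟩ := h1
      refine ⟨⟨x, hxN⟩, ⟨h1, fun i hi => ?_⟩, rfl⟩
      obtain ⟨_, h3⟩ := mem_Ot.1 (h2 i hi)
      exact h3
    · rintro ⟨y, ⟨hy, hy'⟩, rfl⟩
      exact ⟨(mem_Rt h).2 ⟨y.2, hy⟩, fun i hi => mem_Ot.2 ⟨y.2, hy' i hi⟩⟩
  rw [h1]
  exact ⟨((Mixed e S).equivMapOfInjective N.subtype N.subtype_injective).symm⟩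

/-- mapping tori of isomorphic groups -/
theorem tori_equiv (hC : ClosedE C) {D E : Type} [Group D] [Group E] (f : D ≃* E)
    (hE : Tori C E) : Tori C D := by
  intro α
  obtain ⟨K, hK⟩ : ∃ K : Subgroup (D ⋊[zpowersHom (MulAut D) α] Multiplicative ℤ),
    K = (SemidirectProduct.inl (φ := zpowersHom (MulAut D) α)).range := ⟨_, rfl⟩
  have hKn : K.Normal := by
    rw [hK, SemidirectProduct.range_inl_eq_ker_rightHom]
    infer_instance
  have e1 : K ≃* E := by
    subst hK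
    exact (MonoidHom.ofInjective
      (SemidirectProduct.inl_injective (φ := zpowersHom (MulAut D) α))).symm.trans f
  have h1 := tori_cyc hC hE K e1 (SemidirectProduct.inr (Multiplicative.ofAdd (1 : ℤ))) (by
    intro x
    constructor
    · intro hx
      exact hKn.conj_mem x hx _
    · intro hx
      have := hKn.conj_mem _ hx (SemidirectProduct.inr (Multiplicative.ofAdd (1 : ℤ)))⁻¹
      have h2 : ∀ t : D ⋊[zpowersHom (MulAut D) α] Multiplicative ℤ,
        t⁻¹ * (t * x * t⁻¹) * t⁻¹⁻¹ = x := fun t => by group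
      rwa [h2] at this)
  refine C_equiv hC.base Subgroup.topEquiv.symm (C_le hC.base (H := ⊤) ?_ h1)
  intro x _
  rw [← SemidirectProduct.inl_left_mul_inr_right x]
  refine mul_mem (Subgroup.mem_sup_left ?_) (Subgroup.mem_sup_right ?_)
  · rw [hK]
    exact ⟨x.left, rfl⟩
  · rw [Subgroup.mem_zpowers_iff]
    refine ⟨Multiplicative.toAdd x.right, ?_⟩
    rw [← map_zpow]
    congr 1
    rw [← ofAdd_zsmul]
    simp

theorem levels {R O : Finset I → Subgroup G} (hC : ClosedE C) (d : Sys N R O)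
    (hmix : ∀ S : Finset I, Tori C (Mx R O S))
    [hN : N.Normal] (hQ : C (G ⧸ N)) (m : ℕ) : ∀ _ : (K N O m).Normal, C (G ⧸ K N O m) := by
  induction m with
  | zero =>
    intro _
    exact C_equiv hC.base (QuotientGroup.quotientMulEquivOfEq K_zero) hQ
  | succ m ih =>
    intro hn
    have hn0 := K_normal d m
    exact quo_step hC d m (fun S _ => hmix S) (ih hn0)

theorem main_sys {R O : Finset I → Subgroup G} (hC : ClosedE C) (d : Sys N R O)
    (hmix : ∀ S : Finset I, Tori C (Mx R O S))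
    [hN : N.Normal] (hQ : C (G ⧸ N)) : C G := by
  refine main_detected hC N (fun g E hE hEN => ?_) hQ
  -- a finite set of indices
  obtain ⟨D, hD⟩ : ∃ D : Finset I, E ⊆ R D := by
    induction E, hE using Set.Finite.induction_on with
    | empty => exact ⟨∅, Set.empty_subset _⟩
    | @insert a s _ _ ih =>
      obtain ⟨D, hD⟩ := ih fun x hx => hEN (Set.mem_insert_of_mem a hx)
      obtain ⟨D', hD'⟩ := d.ex a (hEN (Set.mem_insert a s))
      refine ⟨D ∪ D', fun x hx => ?_⟩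
      rcases Set.mem_insert_iff.1 hx with rfl | hx
      · exact d.mono _ _ Finset.subset_union_right hD'
      · exact d.mono _ _ Finset.subset_union_left (hD hx)
  have hn := K_normal d (D.card + 1)
  refine ⟨G ⧸ K N O (D.card + 1), inferInstance,
    (QuotientGroup.mk' (K N O (D.card + 1))).comp (Subgroup.subtype _),
    levels hC d hmix hQ _ hn, ?_⟩
  intro x hx h1
  have h2 : (x : G) ∈ K N O (D.card + 1) := (QuotientGroup.eq_one_iff _).1 h1
  have h3 : (x : G) ∈ R D := (Subgroup.closure_le _).2 hD hx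
  exact Subtype.ext (d.ind D _ h3 ((mem_K.1 h2).2 D (Nat.lt_succ_self _)))

/-- **extensions by groups with a system of retractions** -/
theorem main_retractions (hC : ClosedE C) {e : Finset I → (N →* N)} (h : RetractionSystem N e)
    (hmix : ∀ S : Finset I, Tori C (Mixed e S)) [hN : N.Normal] (hQ : C (G ⧸ N)) : C G := by
  refine main_sys hC (sys h hN) (fun S => ?_) hQ
  obtain ⟨f⟩ := mixed_equiv h S
  exact tori_equiv hC f (hmix S)

end main

end Pool.Agent.W5h2.RS
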