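import Pool.Agent.W5h2.GP.Quot

/-!
# Systems of retractions indexed by the finite subsets of a set: the filtration
-/

set_option autoImplicit false

namespace Pool.Agent.W5h2.RS

open Pool.Agent.Y110.FJ
open Pool.Agent.R941.FJ (C_equiv C_le C_cyc mem_sup_normal IsRdp)
open Pool.Agent.Y462.SS (Closed)
open Pool.Agent.W5h2.GP (rdp_set Tori tori_cyc)

variable {C : ∀ (G : Type) [Group G], Prop}

/-- `N` is the union of the subgroups `R D`, with complements `O D` -/
structure Sys {G I : Type} [Group G] [DecidableEq I] (N : Subgroup G)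
    (R O : Finset I → Subgroup G) : Prop where
  nor : N.Normal
  R_le : ∀ S, R S ≤ N
  O_le : ∀ S, O S ≤ N
  mono : ∀ S T, S ⊆ T → R S ≤ R T
  anti : ∀ S T, S ⊆ T → O T ≤ O S
  conj : ∀ S, ∀ m ∈ N, ∀ x ∈ O S, m * x * m⁻¹ ∈ O S
  dec : ∀ D T, ∀ x ∈ R D, ∃ b ∈ R (T ∩ D), ∃ l ∈ O T, x = b * l
  ind : ∀ S, ∀ x ∈ R S, x ∈ O S → x = 1
  ex : ∀ x ∈ N, ∃ D, x ∈ R D
  perm : ∀ g : G, ∃ σ : Equiv.Perm I, ∀ S x, x ∈ O S ↔ g * x * g⁻¹ ∈ O (S.image σ)

section defs

variable {G I : Type} [Group G] [DecidableEq I] {N : Subgroup G} {R O : Finset I → Subgroup G}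

theorem Sys.conj' (d : Sys N R O) {S : Finset I} {m x : G} (hm : m ∈ N) (hx : x ∈ O S) :
    m⁻¹ * x * m ∈ O S := by
  have := d.conj S _ (N.inv_mem hm) x hx
  rwa [inv_inv] at this

/-- an element of `R S` which vanishes in the part `T ∩ S` vanishes in the part `T` -/
theorem step1 (d : Sys N R O) {S T : Finset I} {x : G} (hx : x ∈ R S) (h2 : x ∈ O (T ∩ S)) :
    x ∈ O T := by
  obtain ⟨b, hb, l, hl, rfl⟩ := d.dec S T x hx
  have hl' : l ∈ O (T ∩ S) := d.anti _ _ Finset.inter_subset_left hl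
  have hb' : b ∈ O (T ∩ S) := by
    have := mul_mem h2 (inv_mem hl')
    rwa [mul_inv_cancel_right] at this
  rw [d.ind _ b hb hb', one_mul]
  exact hl

variable (N O) in
/-- the elements which vanish in all parts with less than `n` elements -/
def K (n : ℕ) : Subgroup G := N ⊓ ⨅ S : Finset I, ⨅ _ : S.card < n, O S

variable (N O) in
/-- the elements which vanish in all parts with at most `card S` elements different from `S` -/
def DT (S : Finset I) : Subgroup G :=
  N ⊓ ⨅ T : Finset I, ⨅ _ : T.card ≤ S.card, ⨅ _ : T ≠ S, O T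

theorem mem_K {n : ℕ} {x : G} : x ∈ K N O n ↔ x ∈ N ∧ ∀ S : Finset I, S.card < n → x ∈ O S := by
  simp only [K, Subgroup.mem_inf, Subgroup.mem_iInf]

theorem mem_DT {S : Finset I} {x : G} : x ∈ DT N O S ↔ x ∈ N ∧ ∀ T : Finset I, T.card ≤ S.card →
    T ≠ S → x ∈ O T := by
  simp only [DT, Subgroup.mem_inf, Subgroup.mem_iInf]

theorem K_zero : K N O 0 = N := by
  ext x
  rw [mem_K]
  simp

theorem K_le (n : ℕ) : K N O n ≤ N := inf_le_left

theorem K_anti {m n : ℕ} (h : m ≤ n) : K N O n ≤ K N O m := by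
  intro x hx
  rw [mem_K] at hx ⊢
  exact ⟨hx.1, fun S hS => hx.2 S (by omega)⟩

theorem DT_le_K {m : ℕ} {S : Finset I} (hS : S.card = m) : DT N O S ≤ K N O m := by
  intro x hx
  rw [mem_DT] at hx
  rw [mem_K]
  refine ⟨hx.1, fun T hT => hx.2 T (by omega) ?_⟩
  rintro rfl
  omega

/-- the component at `S` -/
theorem comp_DT (d : Sys N R O) {S : Finset I}
    {b l : G} (hb : b ∈ R S) (hl : l ∈ O S)
    (hbl : ∀ T : Finset I, T ⊆ S → T ≠ S → b * l ∈ O T) : b ∈ DT N O S := by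
  rw [mem_DT]
  refine ⟨d.R_le _ hb, fun T hT hTS => ?_⟩
  refine step1 d hb ?_
  have hne : T ∩ S ≠ S := by
    intro heq
    apply hTS
    have h1 : S ⊆ T := by
      rw [← heq]
      exact Finset.inter_subset_left
    exact (Finset.eq_of_subset_of_card_le h1 hT).symm
  have h1 := hbl (T ∩ S) Finset.inter_subset_right hne
  have h2 : l ∈ O (T ∩ S) := d.anti _ _ Finset.inter_subset_right hl
  have := mul_mem h1 (inv_mem h2)
  rwa [mul_inv_cancel_right] at this

theorem gen_K (d : Sys N R O) (m : ℕ) {x : G} (hx : x ∈ K N O m) :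
    ∃ z ∈ ⨆ S : {S : Finset I // S.card = m}, DT N O S.1, ∃ y ∈ K N O (m + 1), x = z * y := by
  obtain ⟨D, hD⟩ := d.ex x (K_le m hx)
  have key : ∀ 𝒮 : Finset (Finset I), (∀ S ∈ 𝒮, S ⊆ D ∧ S.card = m) →
      ∃ z ∈ ⨆ S : {S : Finset I // S.card = m}, DT N O S.1, ∃ y, x = z * y ∧ y ∈ K N O m ∧
        y ∈ R D ∧ ∀ S ∈ 𝒮, y ∈ O S := by
    intro 𝒮
    induction 𝒮 using Finset.induction_on with
    | empty =>
      intro _
      exact ⟨1, one_mem _, x, (one_mul x).symm, hx, hD, by simp⟩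
    | @insert S 𝒮 hS ih =>
      intro hh
      obtain ⟨z, hz, y, hxy, hyK, hyD, hy⟩ := ih fun S hS => hh S (Finset.mem_insert_of_mem hS)
      obtain ⟨hSD, hSc⟩ := hh S (Finset.mem_insert_self _ _)
      obtain ⟨b, hb, l, hl, hbl⟩ := d.dec D S y hyD
      rw [Finset.inter_eq_left.2 hSD] at hb
      have hyK' := mem_K.1 hyK
      have hbD : b ∈ DT N O S := by
        refine comp_DT d hb hl fun T hTS hne => ?_
        rw [← hbl]
        refine hyK'.2 T ?_
        have := Finset.card_lt_card (Finset.ssubset_iff_subset_ne.2 ⟨hTS, hne⟩)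
        omega
      have hlb : l = b⁻¹ * y := by rw [hbl]; group
      refine ⟨z * b, mul_mem hz ?_, l, ?_, ?_, ?_, ?_⟩
      · exact (le_iSup (fun S : {S : Finset I // S.card = m} => DT N O S.1) ⟨S, hSc⟩) hbD
      · rw [hxy, hbl]; group
      · rw [hlb]
        exact mul_mem (inv_mem (DT_le_K hSc hbD)) hyK
      · rw [hlb]
        exact mul_mem (inv_mem (d.mono _ _ hSD hb)) hyD
      · intro T hT
        rcases Finset.mem_insert.1 hT with rfl | hT'
        · exact hl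
        · have hne : T ≠ S := fun he => hS (he ▸ hT')
          have h1 := (mem_DT.1 hbD).2 T (by rw [hSc, (hh T hT).2]) hne
          rw [hlb]
          exact mul_mem (inv_mem h1) (hy T hT')
  obtain ⟨z, hz, y, hxy, hyK, hyD, hy⟩ := key (D.powersetCard m) fun S hS =>
    Finset.mem_powersetCard.1 hS
  refine ⟨z, hz, y, ?_, hxy⟩
  have hyK' := mem_K.1 hyK
  rw [mem_K]
  refine ⟨hyK'.1, fun T hT => ?_⟩
  by_cases hTm : T.card < m
  · exact hyK'.2 T hTm
  by_cases hTD : T ⊆ D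
  · exact hy T (Finset.mem_powersetCard.2 ⟨hTD, by omega⟩)
  · refine step1 d hyD ?_
    refine hyK'.2 _ ?_
    have h1 : T ∩ D ⊂ T := by
      rw [Finset.ssubset_iff_subset_ne]
      refine ⟨Finset.inter_subset_left, fun he => hTD ?_⟩
      rw [← he]
      exact Finset.inter_subset_right
    have := Finset.card_lt_card h1
    omega

/-! ### conjugation -/

theorem K_normal (d : Sys N R O) (n : ℕ) : (K N O n).Normal := by
  refine ⟨fun x hx g => ?_⟩
  rw [mem_K] at hx ⊢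
  refine ⟨d.nor.conj_mem x hx.1 g, fun T hT => ?_⟩
  obtain ⟨σ, hσ⟩ := d.perm g
  have h1 := (hσ (T.image σ.symm) x).1 (hx.2 _ (Finset.card_image_le.trans_lt hT))
  rwa [Finset.image_image, show (σ ∘ σ.symm) = id from funext fun i => σ.apply_symm_apply i,
    Finset.image_id] at h1

theorem DT_conj (d : Sys N R O) (g : G) (σ : Equiv.Perm I)
    (hσ : ∀ S x, x ∈ O S ↔ g * x * g⁻¹ ∈ O (S.image σ)) (S : Finset I) {x : G} :
    x ∈ DT N O S ↔ g * x * g⁻¹ ∈ DT N O (S.image σ) := by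
  have hN := d.nor
  have hinv : ∀ T : Finset I, (T.image σ.symm).image σ = T := fun T => by
    rw [Finset.image_image, show (σ ∘ σ.symm) = id from funext fun i => σ.apply_symm_apply i,
      Finset.image_id]
  have hc : ∀ T : Finset I, (T.image σ).card = T.card := fun T =>
    Finset.card_image_of_injective T σ.injective
  rw [mem_DT, mem_DT]
  constructor
  · rintro ⟨h1, h2⟩
    refine ⟨d.nor.conj_mem x h1 g, fun T hT hne => ?_⟩
    rw [← hinv T, ← hσ]
    refine h2 _ ?_ ?_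
    · rw [← hc, hinv, ← hc S]
      exact hT
    · intro he
      exact hne (by rw [← hinv T, he])
  · rintro ⟨h1, h2⟩
    refine ⟨?_, fun T hT hne => ?_⟩
    · have := d.nor.conj_mem _ h1 g⁻¹
      have h3 : g⁻¹ * (g * x * g⁻¹) * g⁻¹⁻¹ = x := by group
      rwa [h3] at this
    · rw [hσ]
      refine h2 _ ?_ ?_
      · rw [hc, hc]
        exact hT
      · intro he
        exact hne (Finset.image_injective σ.injective he)

theorem DT_comm (d : Sys N R O) {S S' : Finset I} (hc : S.card = S'.card) (hne : S ≠ S') {x y : G}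
    (hx : x ∈ DT N O S) (hy : y ∈ DT N O S') : (y * x)⁻¹ * (x * y) ∈ K N O (S.card + 1) := by
  rw [mem_DT] at hx hy
  rw [mem_K]
  refine ⟨N.mul_mem (N.inv_mem (N.mul_mem hy.1 hx.1)) (N.mul_mem hx.1 hy.1), fun T hT => ?_⟩
  by_cases h : T = S
  · have h1 : y ∈ O T := hy.2 T (by omega) (fun h' => hne (h.symm.trans h'))
    have h1' : y⁻¹ ∈ O T := (O T).inv_mem h1
    have h2 : x⁻¹ * y⁻¹ * x ∈ O T := d.conj' hx.1 h1'
    have h3 : (y * x)⁻¹ * (x * y) = x⁻¹ * y⁻¹ * x * y := by group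
    rw [h3]
    exact (O T).mul_mem h2 h1
  · have h1 : x ∈ O T := hx.2 T (by omega) h
    have h2 : y⁻¹ * x * y ∈ O T := d.conj' hy.1 h1
    have h3 : (y * x)⁻¹ * (x * y) = x⁻¹ * (y⁻¹ * x * y) := by group
    rw [h3]
    exact (O T).mul_mem ((O T).inv_mem h1) h2

/-! ### the mixed parts -/

variable (R O) in
/-- the elements of `R S` which vanish in the parts `S \ {i}`, `i ∈ S` -/
def Mx (S : Finset I) : Subgroup G := R S ⊓ ⨅ i, ⨅ _ : i ∈ S, O (S.erase i)

theorem mem_Mx {S : Finset I} {x : G} : x ∈ Mx R O S ↔ x ∈ R S ∧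
    ∀ i ∈ S, x ∈ O (S.erase i) := by
  simp only [Mx, Subgroup.mem_inf, Subgroup.mem_iInf]

theorem Mx_sub (d : Sys N R O) (S T : Finset I) (hTS : T ⊆ S) (hne : T ≠ S) {x : G}
    (hx : x ∈ Mx R O S) : x ∈ O T := by
  rw [mem_Mx] at hx
  obtain ⟨i, hi, hiT⟩ : ∃ i ∈ S, i ∉ T := by
    by_contra h
    push Not at h
    exact hne (Finset.Subset.antisymm hTS h)
  refine d.anti _ _ ?_ (hx.2 i hi)
  intro j hj
  rw [Finset.mem_erase]
  exact ⟨fun h => hiT (h ▸ hj), hTS hj⟩

theorem Mx_le_DT (d : Sys N R O) (S : Finset I) : Mx R O S ≤ DT N O S := by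
  intro x hx
  refine comp_DT d (mem_Mx.1 hx).1 (one_mem (O S)) fun T hT hne => ?_
  rw [mul_one]
  exact Mx_sub d S T hT hne hx

theorem DT_dec (d : Sys N R O) {m : ℕ} {S : Finset I} (hS : S.card = m)
    {x : G} (hx : x ∈ DT N O S) : ∃ b ∈ Mx R O S, ∃ l ∈ K N O (m + 1), x = b * l := by
  have hx' := mem_DT.1 hx
  obtain ⟨D, hD⟩ := d.ex x hx'.1
  obtain ⟨b, hb, l, hl, hbl⟩ := d.dec D S x hD
  have hb' : b ∈ R S := d.mono _ _ Finset.inter_subset_left hb
  have hbT : ∀ T : Finset I, T ⊆ S → T ≠ S → b ∈ O T := by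
    intro T hT hne
    have h1 := hx'.2 T (Finset.card_le_card hT) hne
    rw [hbl] at h1
    have h2 : l ∈ O T := d.anti _ _ hT hl
    have := mul_mem h1 (inv_mem h2)
    rwa [mul_inv_cancel_right] at this
  have hbM : b ∈ Mx R O S := by
    rw [mem_Mx]
    refine ⟨hb', fun i hi => ?_⟩
    exact hbT (S.erase i) (Finset.erase_subset i S) (fun he => by
      have := Finset.notMem_erase i S
      rw [he] at this
      exact this hi)
  refine ⟨b, hbM, l, ?_, hbl⟩
  have hbD := mem_DT.1 (Mx_le_DT d S hbM)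
  rw [mem_K]
  have hlx : l = b⁻¹ * x := by rw [hbl]; group
  refine ⟨d.O_le _ hl, fun T hT => ?_⟩
  by_cases hTS : T = S
  · rw [hTS]; exact hl
  · rw [hlx]
    exact mul_mem (inv_mem (hbD.2 T (by omega) hTS)) (hx'.2 T (by omega) hTS)

/-- the factor of the filtration is the mixed part -/
theorem mix_equiv (d : Sys N R O) {m : ℕ} {S : Finset I} (hS : S.card = m)
    [(K N O (m + 1)).Normal] :
    Nonempty (((DT N O S).map (QuotientGroup.mk' (K N O (m + 1)))) ≃* Mx R O S) := by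
  obtain ⟨π, hπ⟩ : ∃ π : G →* G ⧸ K N O (m + 1), π = QuotientGroup.mk' (K N O (m + 1)) := ⟨_, rfl⟩
  rw [← hπ]
  have hπ1 : ∀ x : G, π x = 1 ↔ x ∈ K N O (m + 1) := by
    intro x
    rw [hπ]
    exact QuotientGroup.eq_one_iff x
  let f : Mx R O S →* (DT N O S).map π :=
    (π.comp (Mx R O S).subtype).codRestrict _ fun x =>
      ⟨x, Mx_le_DT d S x.2, rfl⟩
  have hf : Function.Bijective f := by
    constructor
    · rw [injective_iff_map_eq_one]
      intro x hx
      have h1 : π x = 1 := congrArg Subtype.val hx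
      rw [hπ1, mem_K] at h1
      exact Subtype.ext (d.ind S x (mem_Mx.1 x.2).1 (h1.2 S (by omega)))
    · rintro ⟨_, x, hx, rfl⟩
      obtain ⟨b, hb, l, hl, hbl⟩ := DT_dec d hS hx
      refine ⟨⟨b, hb⟩, Subtype.ext ?_⟩
      show π b = π x
      rw [hbl, map_mul, (hπ1 l).2 hl, mul_one]
  exact ⟨(MulEquiv.ofBijective f hf).symm⟩

/-- one step -/
theorem quo_step (hC : ClosedE C) (d : Sys N R O) (m : ℕ)
    [hn0 : (K N O m).Normal] [hn : (K N O (m + 1)).Normal]
    (hfac : ∀ S : Finset I, S.card = m → Tori C (Mx R O S))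
    (hQ : C (G ⧸ K N O m)) : C (G ⧸ K N O (m + 1)) := by
  have hN := d.nor
  have hequiv : ∀ S : Finset I, S.card = m →
      Nonempty (((DT N O S).map (QuotientGroup.mk' (K N O (m + 1)))) ≃* Mx R O S) :=
    fun S hS => mix_equiv d hS
  obtain ⟨π, hπ⟩ : ∃ π : G →* G ⧸ K N O (m + 1), π = QuotientGroup.mk' (K N O (m + 1)) := ⟨_, rfl⟩
  rw [← hπ] at hequiv
  have hπe : ∀ x y : G, π x = π y ↔ x⁻¹ * y ∈ K N O (m + 1) := by
    intro x y
    rw [hπ]
    exact QuotientGroup.eq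
  have hπ1 : ∀ x : G, π x = 1 ↔ x ∈ K N O (m + 1) := by
    intro x
    rw [hπ]
    exact QuotientGroup.eq_one_iff x
  have hπs : Function.Surjective π := by rw [hπ]; exact QuotientGroup.mk'_surjective _
  have hLn : ((K N O m).map π).Normal := Subgroup.Normal.map inferInstance π hπs
  refine rdp_set hC ((K N O m).map π)
    {D | ∃ S : Finset I, S.card = m ∧ D = (DT N O S).map π} ?_ ?_ ?_ ?_ ?_ ?_
  · -- invariance
    rintro _ ⟨S, hS, rfl⟩ g
    obtain ⟨a, rfl⟩ := hπs g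
    obtain ⟨σ, hσ⟩ := d.perm a
    refine ⟨S.image σ, by rw [Finset.card_image_of_injective S σ.injective, hS], ?_⟩
    apply le_antisymm
    · rintro _ ⟨_, ⟨x, hx, rfl⟩, rfl⟩
      refine ⟨a * x * a⁻¹, (DT_conj d a σ hσ S).1 hx, ?_⟩
      show π (a * x * a⁻¹) = π a * π x * (π a)⁻¹
      rw [map_mul, map_mul, map_inv]
    · rintro _ ⟨y, hy, rfl⟩
      have h2 : a * (a⁻¹ * y * a) * a⁻¹ = y := by group
      have hy' : a * (a⁻¹ * y * a) * a⁻¹ ∈ DT N O (S.image σ) := by
        rw [h2]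
        exact hy
      have h1 := (DT_conj d a σ hσ S).2 hy'
      refine ⟨π (a⁻¹ * y * a), ⟨_, h1, rfl⟩, ?_⟩
      show π a * π (a⁻¹ * y * a) * (π a)⁻¹ = π y
      rw [← map_mul, ← map_inv, ← map_mul, h2]
  · -- generation
    apply le_antisymm
    · refine iSup_le ?_
      rintro ⟨_, S, hS, rfl⟩
      exact Subgroup.map_mono (DT_le_K hS)
    · rintro _ ⟨x, hx, rfl⟩
      obtain ⟨z, hz, y, hy, hxy⟩ := gen_K d m hx
      rw [hxy, map_mul, (hπ1 y).2 hy, mul_one]
      have h1 : (⨆ S : {S : Finset I // S.card = m}, DT N O S.1) ≤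
          (⨆ D : {D | ∃ S : Finset I, S.card = m ∧ D = (DT N O S).map π}, D.1).comap π := by
        refine iSup_le fun S => ?_
        rw [← Subgroup.map_le_iff_le_comap]
        exact le_iSup (fun D : {D | ∃ S : Finset I, S.card = m ∧ D = (DT N O S).map π} => D.1)
          ⟨_, S.1, S.2, rfl⟩
      exact h1 hz
  · -- commutation
    rintro _ ⟨S, hS, rfl⟩ _ ⟨S', hS', rfl⟩ hne _ ⟨x, hx, rfl⟩ _ ⟨y, hy, rfl⟩
    have h1 := DT_comm d (hS.trans hS'.symm) (fun he => hne (by rw [he])) hx hy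
    rw [hS] at h1
    rw [← map_mul, ← map_mul, eq_comm, hπe]
    exact h1
  · -- independence
    rintro _ ⟨S, hS, rfl⟩
    refine ⟨(O S).map π, ?_, ?_⟩
    · rw [eq_bot_iff]
      rintro _ ⟨⟨x, hx, rfl⟩, y, hy, hyx⟩
      rw [Subgroup.mem_bot, hπ1]
      have h1 : y⁻¹ * x ∈ K N O (m + 1) := (hπe y x).1 hyx
      have h2 : x ∈ O S := by
        have := mul_mem hy ((mem_K.1 h1).2 S (by omega))
        rwa [mul_inv_cancel_left] at this
      have hx' := mem_DT.1 hx
      rw [mem_K]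
      refine ⟨hx'.1, fun T hT => ?_⟩
      by_cases hTS : T = S
      · rw [hTS]; exact h2
      · exact hx'.2 T (by omega) hTS
    · rintro _ ⟨S', hS', rfl⟩ hne
      refine Subgroup.map_mono fun x hx => ?_
      exact (mem_DT.1 hx).2 S (by omega) (fun he => hne (by rw [he]))
  · -- the factors
    rintro _ ⟨S, hS, rfl⟩ g hg
    obtain ⟨e⟩ := hequiv S hS
    exact tori_cyc hC (hfac S hS) _ e g hg
  · -- the quotient
    have hle : K N O (m + 1) ≤ K N O m := K_anti (Nat.le_succ m)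
    subst hπ
    exact C_equiv hC.base (QuotientGroup.quotientQuotientEquivQuotient _ _ hle) hQ

end defs

end Pool.Agent.W5h2.RS
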